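import Mathlib

set_option autoImplicit false

namespace Pool.Agent.Results.MP_22eee4_an.RealSequenceBeatsChi

/-- The real sequence `a 1, a 2, ...` satisfies the `χ` inequality
`(j + 1) a_j + a_i ≥ (j + 1) i` for all integers `i, j ≥ 1` (the value `a 0` plays no role). -/
def SatisfiesChi (a : ℕ → ℝ) : Prop :=
  ∀ i j : ℕ, 1 ≤ i → 1 ≤ j → ((j : ℝ) + 1) * i ≤ ((j : ℝ) + 1) * a j + a i

/-- The greedy integer sequence: `χ 1 = 1` and, for `i > 1`, `χ i` is the maximum of
`(j + 1) (i - χ j)` over `1 ≤ j ≤ i - 1`. Here `i = n + 2` and `j = k + 1` with `k = 0, ..., n`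
(the value `χ 0 = 0` plays no role). -/
def chi : ℕ → ℤ
  | 0 => 0
  | 1 => 1
  | (n + 2) => (Finset.univ : Finset (Fin (n + 1))).sup' ⟨0, Finset.mem_univ _⟩
      (fun k => ((k.1 : ℤ) + 2) * ((n : ℤ) + 2 - chi (k.1 + 1)))
  decreasing_by
    have := k.isLt
    omega

lemma chi_one : chi 1 = 1 := by rw [chi]

/-- `chi` has the defining property of the greedy sequence. -/
lemma chi_isGreatest (i : ℕ) (hi : 1 < i) :
    IsGreatest {y : ℤ | ∃ j : ℕ, 1 ≤ j ∧ j ≤ i - 1 ∧ y = ((j : ℤ) + 1) * ((i : ℤ) - chi j)}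
      (chi i) := by
  obtain ⟨n, rfl⟩ : ∃ n, i = n + 2 := ⟨i - 2, by omega⟩
  rw [chi]
  constructor
  · obtain ⟨k, -, hk⟩ := Finset.exists_mem_eq_sup' (s := (Finset.univ : Finset (Fin (n + 1))))
      ⟨0, Finset.mem_univ _⟩ (fun k => ((k.1 : ℤ) + 2) * ((n : ℤ) + 2 - chi (k.1 + 1)))
    refine ⟨k.1 + 1, by omega, by have := k.isLt; omega, ?_⟩
    rw [hk]; push_cast; ring
  · rintro y ⟨j, hj1, hj2, rfl⟩
    obtain ⟨k, rfl⟩ : ∃ k, j = k + 1 := ⟨j - 1, by omega⟩
    have hk : k < n + 1 := by omega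
    have := Finset.le_sup' (s := (Finset.univ : Finset (Fin (n + 1))))
      (fun k => ((k.1 : ℤ) + 2) * ((n : ℤ) + 2 - chi (k.1 + 1))) (Finset.mem_univ ⟨k, hk⟩)
    refine le_trans (le_of_eq ?_) this
    push_cast; ring

lemma chi_lower (i j : ℕ) (hj : 1 ≤ j) (hji : j < i) :
    ((j : ℤ) + 1) * ((i : ℤ) - chi j) ≤ chi i :=
  (chi_isGreatest i (by omega)).2 ⟨j, hj, by omega, rfl⟩

lemma chi_upper (i : ℕ) (hi : 1 < i) :
    ∃ j : ℕ, 1 ≤ j ∧ j ≤ i - 1 ∧ chi i = ((j : ℤ) + 1) * ((i : ℤ) - chi j) :=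
  (chi_isGreatest i hi).1

lemma chi_ge_self (i : ℕ) (hi : 1 ≤ i) : (i : ℤ) ≤ chi i := by
  rcases Nat.lt_or_ge 1 i with h | h
  · have := chi_lower i 1 le_rfl h
    rw [chi_one] at this
    push_cast at this
    have : (2 : ℤ) ≤ i := by exact_mod_cast h
    linarith
  · have : i = 1 := by omega
    subst this
    rw [chi_one]; simp

lemma chi_two : chi 2 = 2 := by
  obtain ⟨j, h1, h2, h3⟩ := chi_upper 2 (by omega)
  obtain rfl : j = 1 := by omega
  rw [h3, chi_one]; norm_num

lemma chi_three : chi 3 = 4 := by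
  obtain ⟨j, h1, h2, h3⟩ := chi_upper 3 (by omega)
  have hl := chi_lower 3 1 (by omega) (by omega)
  rw [chi_one] at hl
  have : j = 1 ∨ j = 2 := by omega
  rcases this with rfl | rfl
  · rw [h3, chi_one]; norm_num
  · rw [chi_two] at h3; norm_num at h3 hl; omega

lemma chi_four : chi 4 = 6 := by
  obtain ⟨j, h1, h2, h3⟩ := chi_upper 4 (by omega)
  have hl := chi_lower 4 1 (by omega) (by omega)
  rw [chi_one] at hl
  have : j = 1 ∨ j = 2 ∨ j = 3 := by omega
  rcases this with rfl | rfl | rfl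
  · rw [h3, chi_one]; norm_num
  · rw [chi_two] at h3; norm_num at h3 hl; omega
  · rw [chi_three] at h3; norm_num at h3 hl; omega

/-- Upper bound for the greedy sequence. -/
lemma chi_le (i : ℕ) (hi : 1 ≤ i) : 4 * chi i ≤ ((i : ℤ) + 1) ^ 2 := by
  rcases Nat.lt_or_ge 1 i with h | h
  · obtain ⟨j, h1, h2, h3⟩ := chi_upper i h
    have hj := chi_ge_self j h1
    rw [h3]
    have : ((j : ℤ) + 1) * ((i : ℤ) - chi j) ≤ ((j : ℤ) + 1) * ((i : ℤ) - j) := by
      apply mul_le_mul_of_nonneg_left _ (by positivity)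
      linarith
    nlinarith [sq_nonneg ((j : ℤ) + 1 - ((i : ℤ) - j))]
  · have : i = 1 := by omega
    subst this
    rw [chi_one]; norm_num

/-- Superlinear lower bound: `χ_i ≥ s i / 2` with `s = ⌊√(2 i)⌋`. -/
lemma chi_ge (i : ℕ) (hi : 2 ≤ i) : (Nat.sqrt (2 * i) : ℤ) * i ≤ 2 * chi i := by
  set s := Nat.sqrt (2 * i) with hs
  have h1 : s * s ≤ 2 * i := Nat.sqrt_le _
  have h2 : 2 ≤ s := by
    rw [hs, Nat.le_sqrt]; omega
  have h3 : s ≤ i := by nlinarith
  have hl := chi_lower i (s - 1) (by omega) (by omega)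
  have hu := chi_le (s - 1) (by omega)
  have hcast : ((s - 1 : ℕ) : ℤ) = (s : ℤ) - 1 := by
    push_cast [Nat.cast_sub (by omega : 1 ≤ s)]; ring
  rw [hcast] at hl hu
  have h1' : (s : ℤ) * s ≤ 2 * i := by exact_mod_cast h1
  have hs0 : (0 : ℤ) ≤ s := by positivity
  have h4 : 4 * chi (s - 1) ≤ 2 * (i : ℤ) := by nlinarith
  have h6 : (s : ℤ) * (2 * ((i : ℤ) - chi (s - 1))) ≥ (s : ℤ) * i := by
    apply mul_le_mul_of_nonneg_left _ hs0
    linarith
  have h7 : (s : ℤ) - 1 + 1 = s := by ring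
  rw [h7] at hl
  linarith

lemma chi_pos (i : ℕ) (hi : 1 ≤ i) : (0 : ℝ) < chi i := by
  have h := chi_ge_self i hi
  have : (0 : ℤ) < chi i := lt_of_lt_of_le (by exact_mod_cast hi) h
  exact_mod_cast this

lemma summable_chi : Summable fun k : ℕ => 1 / (chi (k + 1) : ℝ) := by
  have hs : Summable fun k : ℕ => 4 * (1 / ((k + 1 : ℕ) : ℝ) ^ (3 / 2 : ℝ)) := by
    have h0 := (Real.summable_one_div_nat_rpow (p := 3 / 2)).mpr (by norm_num)
    exact ((summable_nat_add_iff 1).mpr h0).mul_left 4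
  refine Summable.of_nonneg_of_le (fun k => ?_) (fun k => ?_) hs
  · exact (one_div_pos.mpr (chi_pos _ (by omega))).le
  · have hi1 : 1 ≤ k + 1 := by omega
    have hpos := chi_pos (k + 1) hi1
    set i := k + 1 with hidef
    have hi0 : (0 : ℝ) < i := by exact_mod_cast hi1
    have hb : ((i : ℕ) : ℝ) ^ (3 / 2 : ℝ) ≤ 4 * chi i := by
      rcases Nat.lt_or_ge i 2 with h | h
      · have : i = 1 := by omega
        rw [this, chi_one]; norm_num
      · have h1 := chi_ge i h
        have h1' : (Nat.sqrt (2 * i) : ℝ) * i ≤ 2 * chi i := by exact_mod_cast h1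
        have h2 : Real.sqrt i ≤ 2 * (Nat.sqrt (2 * i) : ℝ) := by
          have h3 : 2 * i < (Nat.sqrt (2 * i) + 1) * (Nat.sqrt (2 * i) + 1) :=
            Nat.lt_succ_sqrt (2 * i)
          have h5 : 1 ≤ Nat.sqrt (2 * i) := by
            rw [Nat.le_sqrt]; omega
          have h3' : (2 : ℝ) * i < ((Nat.sqrt (2 * i) : ℝ) + 1) * ((Nat.sqrt (2 * i) : ℝ) + 1) := by
            exact_mod_cast h3
          have h5' : (1 : ℝ) ≤ (Nat.sqrt (2 * i) : ℝ) := by exact_mod_cast h5
          apply Real.sqrt_le_iff.mpr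
          constructor
          · positivity
          · nlinarith
        have h4 : ((i : ℕ) : ℝ) ^ (3 / 2 : ℝ) = i * Real.sqrt i := by
          rw [show (3 / 2 : ℝ) = 1 + 1 / 2 by norm_num, Real.rpow_add hi0, Real.rpow_one,
            Real.sqrt_eq_rpow]
        rw [h4]
        nlinarith
    have hrp : (0 : ℝ) < ((i : ℕ) : ℝ) ^ (3 / 2 : ℝ) := Real.rpow_pos_of_pos hi0 _
    rw [mul_one_div, div_le_div_iff₀ hpos hrp]
    linarith

/-- The sequence `2/3, 8/3, 14/3, 20/3, χ 5, χ 6, ...`. -/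
noncomputable def better (k : ℕ) : ℝ :=
  if k = 1 then 2 / 3 else if k = 2 then 8 / 3 else if k = 3 then 14 / 3
  else if k = 4 then 20 / 3 else chi k

lemma better_of_ge {k : ℕ} (hk : 5 ≤ k) : better k = chi k := by
  unfold better
  rw [if_neg (by omega), if_neg (by omega), if_neg (by omega), if_neg (by omega)]

/-- **Disproof of Q1.** The real sequence `better` satisfies the `χ` inequality, both reciprocal sums
are finite, and the one of `better` exceeds the one of the greedy sequence by more than `8/25`. -/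
theorem result : ∃ a : ℕ → ℝ, SatisfiesChi a ∧
    Summable (fun k : ℕ => 1 / a (k + 1)) ∧ Summable (fun k : ℕ => 1 / (chi (k + 1) : ℝ)) ∧
    ∑' k : ℕ, 1 / (chi (k + 1) : ℝ) + 8 / 25 < ∑' k : ℕ, 1 / a (k + 1) := by
  have hb1 : better 1 = 2 / 3 := by norm_num [better]
  have hb2 : better 2 = 8 / 3 := by norm_num [better]
  have hb3 : better 3 = 14 / 3 := by norm_num [better]
  have hb4 : better 4 = 20 / 3 := by norm_num [better]
  have hchi := summable_chi
  have htail : (fun k : ℕ => 1 / better (k + 4 + 1)) = fun k : ℕ => 1 / (chi (k + 4 + 1) : ℝ) := by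
    funext k
    rw [better_of_ge (by omega)]
  have hsum : Summable fun k : ℕ => 1 / better (k + 1) := by
    rw [← summable_nat_add_iff 4]
    rw [htail]
    exact (summable_nat_add_iff 4).mpr hchi
  refine ⟨better, ?_, hsum, hchi, ?_⟩
  · intro i j hi hj
    have hlow : ∀ k : ℕ, 1 ≤ k → (k : ℝ) ≤ chi k := fun k hk => by exact_mod_cast chi_ge_self k hk
    have hchi3 : ∀ k : ℕ, 5 ≤ k → 3 * ((k : ℝ) - 2) ≤ chi k := by
      intro k hk
      have := chi_lower k 2 (by omega) (by omega)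
      rw [chi_two] at this
      push_cast at this
      have h2 : ((3 * ((k : ℤ) - 2) : ℤ) : ℝ) ≤ ((chi k : ℤ) : ℝ) := by
        exact_mod_cast (by linarith : 3 * ((k : ℤ) - 2) ≤ chi k)
      push_cast at h2
      exact h2
    have hgen : ∀ k l : ℕ, 1 ≤ l → l < k → ((l : ℝ) + 1) * ((k : ℝ) - chi l) ≤ chi k := by
      intro k l hl hlk
      exact_mod_cast chi_lower k l hl hlk
    rcases Nat.lt_or_ge j 5 with hj5 | hj5
    · rcases Nat.lt_or_ge i 5 with hi5 | hi5
      · interval_cases i <;> interval_cases j <;> simp only [hb1, hb2, hb3, hb4] <;> norm_num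
      · rw [better_of_ge hi5]
        have h3 := hchi3 i hi5
        have hi5' : (5 : ℝ) ≤ i := by exact_mod_cast hi5
        have hg := hgen i j hj (by omega)
        interval_cases j
        · rw [hb1]; push_cast; linarith
        · rw [chi_two] at hg; rw [hb2]; push_cast at hg ⊢; linarith
        · rw [chi_three] at hg; rw [hb3]; push_cast at hg ⊢; linarith
        · rw [chi_four] at hg; rw [hb4]; push_cast at hg ⊢; linarith
    · rw [better_of_ge hj5]
      have hjl := hlow j hj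
      have hj0 : (0 : ℝ) ≤ (j : ℝ) + 1 := by positivity
      have hipos : (0 : ℝ) ≤ better i := by
        rcases Nat.lt_or_ge i 5 with hi5 | hi5
        · interval_cases i <;> simp only [hb1, hb2, hb3, hb4] <;> norm_num
        · rw [better_of_ge hi5]; exact (chi_pos i hi).le
      rcases Nat.lt_or_ge j i with hji | hji
      · rw [better_of_ge (by omega)]
        have hg := hgen i j hj hji
        linarith [mul_sub ((j : ℝ) + 1) (i : ℝ) (chi j)]
      · have : (i : ℝ) ≤ j := by exact_mod_cast hji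
        have := mul_le_mul_of_nonneg_left (this.trans hjl) hj0
        linarith
  · rw [← hchi.sum_add_tsum_nat_add 4, ← hsum.sum_add_tsum_nat_add 4]
    have : (∑' k : ℕ, 1 / better (k + 4 + 1)) = ∑' k : ℕ, 1 / (chi (k + 4 + 1) : ℝ) := by
      rw [htail]
    rw [this]
    simp only [Finset.sum_range_succ, Finset.sum_range_zero, zero_add, Nat.reduceAdd]
    rw [hb1, hb2, hb3, hb4, chi_one, chi_two, chi_three, chi_four]
    generalize (∑' k : ℕ, 1 / (chi (k + 4 + 1) : ℝ)) = S
    norm_num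
    linarith

end Pool.Agent.Results.MP_22eee4_an.RealSequenceBeatsChi
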